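import Mathlib
import Pool.Agent.H761R3.Arn.Defs
import Pool.Agent.H761R3.Arn.Reduce

set_option autoImplicit false

namespace Pool.Agent.Results.MP_6fff33_lc.ArnoldStability

open Nat.Partrec
open Pool.Agent.H761R3.Arn

/-- the halting set as a set of natural numbers -/
def haltSet (a : ℕ) : Prop := (Code.eval (Denumerable.ofNat Code a) 0).Dom

theorem haltSet_re : REPred haltSet := by
  have h : Partrec fun a : ℕ => Code.eval (Denumerable.ofNat Code a) 0 :=
    Code.eval_part.comp (Primrec.ofNat Code).to_comp (Computable.const 0)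
  exact h.dom_re

theorem haltSet_not_computable : ¬ ComputablePred haltSet := by
  intro h
  apply ComputablePred.halting_problem 0
  obtain ⟨inst, hc⟩ := h
  have h2 : Computable fun c : Code => decide (haltSet (Encodable.encode c)) :=
    hc.comp Computable.encode
  refine ⟨fun c => Classical.dec _, h2.of_eq fun c => ?_⟩
  simp [haltSet]

/-- in one fixed dimension and degree no algorithm separates global asymptotic stability from
Lyapunov instability -/
theorem inseparable : ∃ n₀ d₀ : ℕ, ∀ d : ℕ, d₀ ≤ d →
    ¬ ∃ D : List Term → Bool, Computable D ∧ ∀ L : List Term, Valid n₀ d L →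
      (GlobAsympStable (field n₀ L) → D L = true) ∧ (D L = true → LyapStable (field n₀ L)) := by
  obtain ⟨n, d₀, T0, T1, T2, hred⟩ := reduction haltSet_re
  refine ⟨n, d₀, fun d hd => ?_⟩
  rintro ⟨D, hD, hL⟩
  apply haltSet_not_computable
  have h1 : Computable fun a : ℕ => D (La T0 T1 T2 a) := hD.comp (La_computable T0 T1 T2)
  have h2 : Computable fun a : ℕ => !(D (La T0 T1 T2 a)) := (Primrec.not.to_comp).comp h1
  refine ⟨fun a => Classical.dec _, h2.of_eq fun a => ?_⟩
  obtain ⟨hv, hg, hu⟩ := hred a
  have hv' : Valid n d (La T0 T1 T2 a) := fun i => ⟨(hv i).1.trans hd, (hv i).2⟩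
  obtain ⟨k1, k2⟩ := hL _ hv'
  by_cases hP : haltSet a
  · have : D (La T0 T1 T2 a) ≠ true := fun h => hu hP (k2 h)
    simp [hP, this]
  · have : D (La T0 T1 T2 a) = true := k1 (hg hP)
    simp [hP, this]

/-- a property between global asymptotic stability and Lyapunov stability is undecidable -/
theorem undecidable_between {d n₀ : ℕ}
    (h : ¬ ∃ D : List Term → Bool, Computable D ∧ ∀ L : List Term, Valid n₀ d L →
      (GlobAsympStable (field n₀ L) → D L = true) ∧ (D L = true → LyapStable (field n₀ L)))
    (S : (n : ℕ) → (Fin n → MvPolynomial (Fin n) ℚ) → Prop)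
    (h1 : ∀ n f, GlobAsympStable f → S n f) (h2 : ∀ n f, S n f → LyapStable f) :
    ¬ ∃ D : ℕ × List Term → Bool, Computable D ∧ ∀ (n : ℕ) (L : List Term), Valid n d L →
      (D (n, L) = true ↔ S n (field n L)) := by
  rintro ⟨D, hD, hL⟩
  apply h
  refine ⟨fun L => D (n₀, L), hD.comp (Computable.pair (Computable.const n₀) Computable.id), fun L hv => ?_⟩
  exact ⟨fun hg => (hL n₀ L hv).2 (h1 _ _ hg), fun hd => h2 _ _ ((hL n₀ L hv).1 hd)⟩

/-- **Arnold's question has a negative answer for all three notions of stability.**
There are `n₀` and `d₀` such that for every degree bound `d ≥ d₀`: no algorithm decides Lyapunov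
stability, no algorithm decides local asymptotic stability, and no algorithm decides global
asymptotic stability of the origin for polynomial vector fields `f` with rational coefficients,
degree at most `d` and `f(0) = 0` (input: the dimension and the list of coefficients); moreover,
already in the fixed dimension `n₀` no algorithm separates the globally asymptotically stable
fields from those that are not Lyapunov stable. -/
theorem result : ∃ n₀ d₀ : ℕ, ∀ d : ℕ, d₀ ≤ d →
    (¬ ∃ D : ℕ × List Term → Bool, Computable D ∧ ∀ (n : ℕ) (L : List Term), Valid n d L →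
      (D (n, L) = true ↔ LyapStable (field n L))) ∧
    (¬ ∃ D : ℕ × List Term → Bool, Computable D ∧ ∀ (n : ℕ) (L : List Term), Valid n d L →
      (D (n, L) = true ↔ LocAsympStable (field n L))) ∧
    (¬ ∃ D : ℕ × List Term → Bool, Computable D ∧ ∀ (n : ℕ) (L : List Term), Valid n d L →
      (D (n, L) = true ↔ GlobAsympStable (field n L))) ∧
    (¬ ∃ D : List Term → Bool, Computable D ∧ ∀ L : List Term, Valid n₀ d L →
      (GlobAsympStable (field n₀ L) → D L = true) ∧ (D L = true → LyapStable (field n₀ L))) := by
  obtain ⟨n₀, d₀, h⟩ := inseparable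
  refine ⟨n₀, d₀, fun d hd => ⟨?_, ?_, ?_, h d hd⟩⟩
  · exact undecidable_between (h d hd) (fun n f => LyapStable f) (fun n f hg => hg.1) (fun n f hs => hs)
  · refine undecidable_between (h d hd) (fun n f => LocAsympStable f) (fun n f hg => ⟨hg.1, 1, one_pos, fun x₀ _ => hg.2 x₀⟩)
      (fun n f hs => hs.1)
  · exact undecidable_between (h d hd) (fun n f => GlobAsympStable f) (fun n f hg => hg) (fun n f hs => hs.1)

end Pool.Agent.Results.MP_6fff33_lc.ArnoldStability
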